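import Pool.Agent.R942.WP.Slope
import Pool.Agent.R942.WS.Final

/-!
# The condition on the isocrystals
-/

set_option autoImplicit false

namespace Pool.Agent.R942.WP

open Module Pool.Agent.Y143 Pool.Agent.R942.WS Pool.Agent.R942.WM

universe u v

variable {Ω : Type u} [Field Ω] [CharZero Ω] {Γ : Type} {n q : ℕ}

lemma isSub_iff {X : SpecialFibre.{u, v} Ω Γ n q} (E : CrystalData X.toStrataData) (p : ℕ)
    (i w : ℤ) (S : AddSubgroup X.C) :
    IsSubIsocrystal E.K₀ (E.phi p i) (primitiveCrystal E i w) S ↔ IsSubcrystal E p i w S :=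
  ⟨fun h => ⟨h.smul, fun x hx => (h.le x hx).1, fun x hx => (h.le x hx).2, h.stable⟩,
    fun h => ⟨h.smul, fun x hx => ⟨h.rational x hx, h.primitive x hx⟩, h.stable⟩⟩

theorem goodUpTo_of_crystal [IsAlgClosed Ω] {X : SpecialFibre.{u, v} Ω Γ n q}
    (A : DivisorClasses X) {p f : ℕ} [NeZero p] (E : Crystals X.toStrataData p f) {val : Ω → ℚ}
    (hval : IsValuation E.K₀ E.σ val) (hq : q = p ^ f) (hf : 0 < f) {r : ℕ}
    (h : CrystalGoodUpTo A E.toCrystalData p f val r) : GoodUpTo A r := by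
  intro i w hi hw hwr hiw χ
  rcases h i w hi hw hwr hiw χ with h1 | h1 | h1
  · exact h1
  · obtain ⟨S, ⟨h2, h3⟩, h4⟩ := h1
    exact Or.inl (simpleAt_of_inSimple E ⟨S, ⟨(isSub_iff _ _ _ _ _).1 h2, fun S' hS' hS'' =>
      h3 S' hS' ((isSub_iff _ _ _ _ _).2 hS'')⟩, h4⟩)
  · obtain ⟨S, lam, h2, h3, h4, h5⟩ := h1
    exact Or.inl (simpleAt_of_inSlope E hval hq hf
      ⟨S, lam, (isSub_iff _ _ _ _ _).1 h2, h3, h4, h5⟩)

theorem goodUpTo_one {X : SpecialFibre.{u, v} Ω Γ n q} (A : DivisorClasses X) :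
    GoodUpTo A 1 := fun _ _ _ h1 h2 => absurd h1 (by omega)

end Pool.Agent.R942.WP
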