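import Pool.Agent.R942.WP.FormDefs
import Pool.Agent.R942.WS.Defs

/-!
# The isocrystals of the strata of the special fibre

`K` is a finite extension of `ℚ_p` with residue field with `q = p ^ f` elements, `K₀` is its maximal
unramified subfield and `σ` is the Frobenius of `K₀`. The coefficient field `Ω` is an algebraic closure
of `K₀`, and `σ` also denotes an extension of `σ` to `Ω`. The crystalline cohomology of the strata of
the special fibre of a projective strictly semistable scheme over the ring of integers of `K`, with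
the scalars extended to `Ω`, is given by data `X` as in `Pool.Agent.Y143`, and the isocrystals
themselves by the following structures.
-/

set_option autoImplicit false

namespace Pool.Agent.R942.WP

open Module Pool.Agent.Y143 Pool.Agent.R942.WS

universe u v

section Variety

variable {Ω : Type u} [Field Ω] {H : Type v} [AddCommGroup H] [Module Ω H] {H' : Type v}
  [AddCommGroup H'] [Module Ω H']

/-- `D` is the `K₀`-space given by the crystalline cohomology of a smooth projective variety over the
residue field, `H = Ω ⊗ D` with the grading `gr`, and `φ` is the Frobenius of `D`, extended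
`σ`-semilinearly to `H`. The linear operator `F` is the geometric Frobenius `φ ^ f`. -/
structure IsCrystal (K₀ : Subfield Ω) (σ : Ω ≃+* Ω) (f : ℕ) (gr : ℤ → Submodule Ω H)
    (F : Module.End Ω H) (D : AddSubgroup H) (φ : H →+ H) : Prop where
  form : IsForm K₀ D
  span : ∀ m x, x ∈ gr m → x ∈ Submodule.span Ω {y | y ∈ D ∧ y ∈ gr m}
  semilinear : ∀ c x, φ (c • x) = σ c • φ x
  stable : ∀ x ∈ D, φ x ∈ D
  graded : ∀ m x, x ∈ gr m → φ x ∈ gr m
  frob : ∀ x ∈ D, φ^[f] x = F x

/-- The map `ρ` maps the `K₀`-space `D` to `D'`, and `φ' ρ = c ρ φ`. -/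
structure IsCrystalMap (D : AddSubgroup H) (D' : AddSubgroup H')
    (φ : H →+ H) (φ' : H' →+ H') (ρ : H →ₗ[Ω] H') (c : Ω) : Prop where
  map : ∀ x ∈ D, ρ x ∈ D'
  comm : ∀ x, φ' (ρ x) = c • ρ (φ x)

end Variety

section Isocrystal

variable {Ω : Type u} [Field Ω] {V : Type v} [AddCommGroup V] [Module Ω V]

/-- `S` is a sub-isocrystal of the isocrystal `P` (over the field `K₀`, with the Frobenius `φ`). -/
structure IsSubIsocrystal (K₀ : Subfield Ω) (φ : V → V) (P : Set V) (S : AddSubgroup V) : Prop where
  smul : ∀ c ∈ K₀, ∀ x ∈ S, c • x ∈ S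
  le : ∀ x ∈ S, x ∈ P
  stable : ∀ x ∈ S, φ x ∈ S

/-- The sub-isocrystal `S` of `P` is simple: it has no other sub-isocrystals than `0` and `S`. -/
def IsSimpleIsocrystal (K₀ : Subfield Ω) (φ : V → V) (P : Set V) (S : AddSubgroup V) : Prop :=
  IsSubIsocrystal K₀ φ P S ∧
    ∀ S' : AddSubgroup V, S' ≤ S → IsSubIsocrystal K₀ φ P S' → S' = ⊥ ∨ S' = S

/-- The isocrystal `S` has slope `lam`: all eigenvalues of the geometric Frobenius `F` on `Ω ⊗ S` have
the valuation `f lam`. -/
def IsOfSlope (f : ℕ) (val : Ω → ℚ) (F : Module.End Ω V) (S : AddSubgroup V) (lam : ℚ) : Prop :=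
  ∀ (α : Ω) (x : V), x ∈ Submodule.span Ω (S : Set V) → x ≠ 0 → F x = α • x → val α = f * lam

/-- The subspace `Q` is contained in `Ω ⊗ S` for a simple sub-isocrystal `S` of `P`. -/
def InSimple (K₀ : Subfield Ω) (φ : V → V) (P : Set V) (Q : Submodule Ω V) : Prop :=
  ∃ S : AddSubgroup V, IsSimpleIsocrystal K₀ φ P S ∧ Q ≤ Submodule.span Ω (S : Set V)

/-- The subspace `Q` is contained in `Ω ⊗ S` for a sub-isocrystal `S` of `P` of some slope `lam` whose
dimension is at most the denominator of `lam` (such an isocrystal is simple). -/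
def InSlope (K₀ : Subfield Ω) (φ : V → V) (P : Set V) (f : ℕ) (val : Ω → ℚ)
    (F : Module.End Ω V) (Q : Submodule Ω V) : Prop :=
  ∃ (S : AddSubgroup V) (lam : ℚ), IsSubIsocrystal K₀ φ P S ∧ IsOfSlope f val F S lam ∧
    finrank Ω (Submodule.span Ω (S : Set V)) ≤ lam.den ∧ Q ≤ Submodule.span Ω (S : Set V)

/-- `val` is the additive `p`-adic valuation of `Ω` (on the nonzero elements), normalized so that its
values on the unramified field `K₀` are integers; it is invariant under the Frobenius `σ` on `K₀`. -/
structure IsValuation (K₀ : Subfield Ω) (σ : Ω ≃+* Ω) (val : Ω → ℚ) : Prop where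
  mul : ∀ x y, x ≠ 0 → y ≠ 0 → val (x * y) = val x + val y
  int : ∀ x ∈ K₀, x ≠ 0 → ∃ k : ℤ, val x = k
  frob : ∀ x ∈ K₀, val (σ x) = val x

end Isocrystal

variable {Ω : Type u} [Field Ω] {Γ : Type}

/-- The data of the isocrystals `(D a, φ a)` given by the crystalline cohomology of the strata
`Y^(a+1)`. -/
structure CrystalData (X : StrataData.{u, v} Ω Γ) where
  K₀ : Subfield Ω
  σ : Ω ≃+* Ω
  D : ∀ a, AddSubgroup (X.H a)
  φ : ∀ a, X.H a →+ X.H a

/-- The isocrystals `(D a, φ a)` given by the crystalline cohomology of the strata `Y^(a+1)`: the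
restriction maps commute with `φ`, and `φ gys = p gys φ` for the Gysin maps. -/
structure Crystals (X : StrataData.{u, v} Ω Γ) (p f : ℕ) extends CrystalData X where
  σ_mem : ∀ c ∈ K₀, σ c ∈ K₀
  crystal : ∀ a, IsCrystal K₀ σ f (X.gr a) (X.act a X.frob) (D a) (φ a)
  res : ∀ a, IsCrystalMap (D a) (D (a + 1)) (φ a) (φ (a + 1)) (X.res a) 1
  gys : ∀ a, IsCrystalMap (D (a + 1)) (D a) (φ (a + 1)) (φ a) (X.gys a) (p : Ω)

namespace CrystalData

variable {X : StrataData.{u, v} Ω Γ} (E : CrystalData X)

/-- The Frobenius `φ` of the column `r` of the weight spectral sequence, with the Tate twists. -/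
def phi (p : ℕ) (r : ℤ) (x : X.C) : X.C := fun a => ((p : Ω) ^ (((a : ℤ) - r) / 2)) • E.φ a (x a)

/-- Families of elements of the `K₀`-spaces `D a`. -/
def IsRational (x : X.C) : Prop := ∀ a, x a ∈ E.D a

end CrystalData

variable [CharZero Ω] {n q : ℕ}

/-- The rational elements (with components in the `K₀`-spaces `D a`) of the primitive part `P^(i, w)`
of the term `E_1^(i, w)` of the weight spectral sequence. With the operator `phi p i` they form an
isocrystal. -/
def primitiveCrystal {X : SpecialFibre.{u, v} Ω Γ n q} (E : CrystalData X.toStrataData)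
    (i w : ℤ) : Set X.C := {x | E.IsRational x ∧ x ∈ X.primitive i w}

/-- All characters of weight `w` with `2 ≤ w ≤ r` satisfy at all places `(i, w)` with
`1 ≤ i ≤ n - w` one of the following conditions: the character is simple, or Tate in the weight `2`
on a stratum with the Tate conjecture for divisors (`Good`); it is contained in a simple isocrystal;
it is contained in an isocrystal of some slope whose dimension is at most the denominator of the
slope. -/
def CrystalGoodUpTo {X : SpecialFibre.{u, v} Ω Γ n q} (A : DivisorClasses X)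
    (E : CrystalData X.toStrataData) (p f : ℕ) (val : Ω → ℚ) (r : ℕ) : Prop :=
  ∀ i w : ℕ, 1 ≤ i → 2 ≤ w → w ≤ r → i + w ≤ n → ∀ χ : Γ → Ω, Good A i w χ ∨
    InSimple E.K₀ (E.phi p i) (primitiveCrystal E i w) (X.primPart i w χ) ∨
    InSlope E.K₀ (E.phi p i) (primitiveCrystal E i w) f val (X.actC i X.frob) (X.primPart i w χ)

end Pool.Agent.R942.WP
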