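import Pool.Agent.R942.WP.FormDefs

/-!
# Forms of a vector space over a subfield
-/

set_option autoImplicit false

namespace Pool.Agent.R942.WP

universe u v

open Module

variable {Ω : Type u} [Field Ω] {V : Type v} [AddCommGroup V] [Module Ω V]

/-- The natural map `Ω ⊗ D → V` is injective. -/
def IsFormIn (K₀ : Subfield Ω) (D : Submodule K₀ V) : Prop :=
  ∀ (r : ℕ) (e : Fin r → Ω) (x : Fin r → V), LinearIndependent K₀ e → (∀ k, x k ∈ D) →
    ∑ k, e k • x k = 0 → ∀ k, x k = 0

/-- The submodule given by a subgroup stable under `K₀`. -/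
def toSub (K₀ : Subfield Ω) (D : AddSubgroup V) (h : ∀ c ∈ K₀, ∀ x ∈ D, c • x ∈ D) :
    Submodule K₀ V where
  carrier := D
  add_mem' := D.add_mem
  zero_mem' := D.zero_mem
  smul_mem' c x hx := h c c.2 x hx

lemma mem_toSub {K₀ : Subfield Ω} {D : AddSubgroup V} {h : ∀ c ∈ K₀, ∀ x ∈ D, c • x ∈ D}
    {x : V} : x ∈ toSub K₀ D h ↔ x ∈ D := Iff.rfl

lemma isIndep_of {K₀ : Subfield Ω} {r : ℕ} {e : Fin r → Ω} (he : LinearIndependent K₀ e) :
    IsIndep K₀ e := by
  intro c hc hs k
  have h1 := linearIndependent_iff'.1 he Finset.univ (fun k => (⟨c k, hc k⟩ : K₀)) (by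
    simpa [Subfield.smul_def] using hs) k (Finset.mem_univ k)
  exact congrArg Subtype.val h1

variable {K₀ : Subfield Ω} {D : Submodule K₀ V}

lemma IsFormIn.mono {D' : Submodule K₀ V} (h : IsFormIn K₀ D) (hD : D' ≤ D) : IsFormIn K₀ D' :=
  fun r e x he hx hs => h r e x he (fun k => hD (hx k)) hs

/-- A linearly independent family of the form is linearly independent over `Ω`. -/
lemma IsFormIn.linearIndependent (h : IsFormIn K₀ D) {ι : Type*} {v : ι → V}
    (hv : ∀ j, v j ∈ D) (hli : LinearIndependent K₀ v) : LinearIndependent Ω v := by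
  classical
  rw [linearIndependent_iff']
  intro s c hc
  let U : Submodule K₀ Ω := Submodule.span K₀ (c '' (s : Set ι))
  have hfin : Module.Finite K₀ U := Module.Finite.span_of_finite K₀ ((s.finite_toSet).image c)
  let b := Module.finBasis K₀ U
  have hcU : ∀ j ∈ s, c j ∈ U := fun j hj => Submodule.subset_span ⟨j, hj, rfl⟩
  have hexp : ∀ j ∈ s, ∃ a : Fin (finrank K₀ U) → K₀, c j = ∑ k, a k • (b k : Ω) := by
    intro j hj
    refine ⟨fun k => b.repr ⟨c j, hcU j hj⟩ k, ?_⟩
    have := congrArg (Submodule.subtype U) (b.sum_repr ⟨c j, hcU j hj⟩)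
    rw [map_sum] at this
    simpa using this.symm
  choose! a ha using hexp
  have h1 : ∑ k, ((b k : U) : Ω) • (∑ j ∈ s, a j k • v j) = 0 := by
    rw [← hc]
    simp_rw [Finset.smul_sum]
    rw [Finset.sum_comm]
    refine Finset.sum_congr rfl (fun j hj => ?_)
    conv_rhs => rw [ha j hj, Finset.sum_smul]
    refine Finset.sum_congr rfl (fun k _ => ?_)
    rw [Subfield.smul_def, Subfield.smul_def, smul_smul, smul_eq_mul, mul_comm]
  have h2 := h _ (fun k => ((b k : U) : Ω)) (fun k => ∑ j ∈ s, a j k • v j)
    (b.linearIndependent.map' U.subtype (Submodule.ker_subtype U)) (fun k =>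
      Submodule.sum_mem _ (fun j _ => Submodule.smul_mem _ _ (hv j))) h1
  intro j hj
  rw [ha j hj]
  apply Finset.sum_eq_zero
  intro k _
  have h3 := linearIndependent_iff'.1 hli s (fun j => a j k) (h2 k) j hj
  rw [h3, zero_smul]

/-- Two subspaces of the form with zero intersection span subspaces with zero intersection. -/
lemma IsFormIn.disjoint_span (h : IsFormIn K₀ D) {S T : Submodule K₀ V} (hS : S ≤ D) (hT : T ≤ D)
    (hST : Disjoint S T) :
    Disjoint (Submodule.span Ω (S : Set V)) (Submodule.span Ω (T : Set V)) := by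
  classical
  let bS := Basis.ofVectorSpace K₀ S
  let bT := Basis.ofVectorSpace K₀ T
  let vS := fun j => (bS j : V)
  let vT := fun j => (bT j : V)
  have hvS : LinearIndependent K₀ vS := bS.linearIndependent.map' S.subtype S.ker_subtype
  have hvT : LinearIndependent K₀ vT := bT.linearIndependent.map' T.subtype T.ker_subtype
  have hspS : Submodule.span K₀ (Set.range vS) = S := by
    have h1 : Set.range vS = S.subtype '' (Set.range bS) := by
      rw [← Set.range_comp]; rfl
    rw [h1, Submodule.span_image, bS.span_eq, Submodule.map_top, Submodule.range_subtype]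
  have hspT : Submodule.span K₀ (Set.range vT) = T := by
    have h1 : Set.range vT = T.subtype '' (Set.range bT) := by
      rw [← Set.range_comp]; rfl
    rw [h1, Submodule.span_image, bT.span_eq, Submodule.map_top, Submodule.range_subtype]
  have hsum : LinearIndependent K₀ (Sum.elim vS vT) := by
    apply hvS.sum_type hvT
    rw [hspS, hspT]
    exact hST
  have hΩ : LinearIndependent Ω (Sum.elim vS vT) := by
    apply h.linearIndependent _ hsum
    rintro (j | j)
    · exact hS (bS j).2
    · exact hT (bT j).2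
  have h2 := (linearIndependent_sum.1 hΩ).2.2
  have key : ∀ {S' : Submodule K₀ V} {ι : Type _} {v : ι → V},
      Submodule.span K₀ (Set.range v) = S' →
      Submodule.span Ω (S' : Set V) ≤ Submodule.span Ω (Set.range v) := by
    intro S' ι v hv
    rw [Submodule.span_le, ← hv]
    intro x hx
    exact Submodule.span_le_restrictScalars K₀ Ω _ hx
  have e1 : Sum.elim vS vT ∘ Sum.inl = vS := rfl
  have e2 : Sum.elim vS vT ∘ Sum.inr = vT := rfl
  rw [e1, e2] at h2
  exact h2.mono (key hspS) (key hspT)

end Pool.Agent.R942.WP
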