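import Mathlib

/-!
# Forms of a vector space over a subfield: definitions
-/

set_option autoImplicit false

namespace Pool.Agent.R942.WP

universe u v

open Module

variable {Ω : Type u} [Field Ω] {V : Type v} [AddCommGroup V] [Module Ω V]

/-- The `e_k` are linearly independent over the subfield `K₀`. -/
def IsIndep (K₀ : Subfield Ω) {r : ℕ} (e : Fin r → Ω) : Prop :=
  ∀ c : Fin r → Ω, (∀ k, c k ∈ K₀) → ∑ k, c k * e k = 0 → ∀ k, c k = 0

/-- `D` is a `K₀`-subspace of `V`, and the natural map `Ω ⊗ D → V` (tensor product over `K₀`) is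
injective: if `∑ e_k x_k = 0` with `x_k ∈ D` and the `e_k` linearly independent over `K₀`, then all
`x_k` are zero. -/
structure IsForm (K₀ : Subfield Ω) (D : AddSubgroup V) : Prop where
  smul : ∀ c ∈ K₀, ∀ x ∈ D, c • x ∈ D
  inj : ∀ (r : ℕ) (e : Fin r → Ω) (x : Fin r → V), IsIndep K₀ e → (∀ k, x k ∈ D) →
    ∑ k, e k • x k = 0 → ∀ k, x k = 0

end Pool.Agent.R942.WP
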