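import Pool.Agent.R942.WP.Form
import Pool.Agent.R942.WP.Defs
import Pool.Agent.Y143.Basic2

/-!
# Simple isocrystals: all or nothing
-/

set_option autoImplicit false

namespace Pool.Agent.R942.WP

open Module Pool.Agent.Y143 Pool.Agent.R942.WS

universe u v

section

variable {Ω : Type u} [Field Ω] [CharZero Ω] {Γ : Type} {n q : ℕ}

/-- The `K₀`-space `S` is a sub-isocrystal of the primitive part of the term `E_1^(i, w)` of the
weight spectral sequence. -/
structure IsSubcrystal {X : SpecialFibre.{u, v} Ω Γ n q} (E : CrystalData X.toStrataData) (p : ℕ)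
    (i w : ℤ) (S : AddSubgroup X.C) : Prop where
  smul : ∀ c ∈ E.K₀, ∀ x ∈ S, c • x ∈ S
  rational : ∀ x ∈ S, E.IsRational x
  primitive : ∀ x ∈ S, x ∈ X.primitive i w
  stable : ∀ x ∈ S, E.phi p i x ∈ S

/-- The sub-isocrystal `S` is simple: it has no other sub-isocrystals than `0` and `S`. -/
def IsSimpleCrystal {X : SpecialFibre.{u, v} Ω Γ n q} (E : CrystalData X.toStrataData) (p : ℕ)
    (i w : ℤ) (S : AddSubgroup X.C) : Prop :=
  IsSubcrystal E p i w S ∧
    ∀ S' : AddSubgroup X.C, S' ≤ S → IsSubcrystal E p i w S' → S' = ⊥ ∨ S' = S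

/-- The part of character `χ` of the primitive part of `E_1^(i, w)` is contained in a simple
isocrystal. -/
def InSimpleC {X : SpecialFibre.{u, v} Ω Γ n q} (E : CrystalData X.toStrataData) (p : ℕ)
    (i w : ℤ) (χ : Γ → Ω) : Prop :=
  ∃ S : AddSubgroup X.C, IsSimpleCrystal E p i w S ∧
    X.primPart i w χ ≤ Submodule.span Ω (S : Set X.C)

end

variable {Ω : Type u} [Field Ω] [CharZero Ω] {Γ : Type} {n q : ℕ}
  {X : SpecialFibre.{u, v} Ω Γ n q} {p f : ℕ} (E : Crystals X.toStrataData p f)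

/-- The rational families. -/
def ratC : Submodule E.K₀ X.C where
  carrier := {x | E.IsRational x}
  add_mem' hx hy a := (E.D a).add_mem (hx a) (hy a)
  zero_mem' a := (E.D a).zero_mem
  smul_mem' c x hx a := (E.crystal a).form.smul c c.2 _ (hx a)

lemma mem_ratC {x : X.C} : x ∈ ratC E ↔ E.IsRational x := Iff.rfl

lemma isFormIn_ratC : IsFormIn E.K₀ (ratC E) := by
  intro r e x he hx hs k
  funext a
  refine (E.crystal a).form.inj r e (fun k => x k a) (isIndep_of he) (fun k => hx k a) ?_ k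
  have := congrFun hs a
  simpa using this

lemma phi_add (r : ℤ) (x y : X.C) : E.phi p r (x + y) = E.phi p r x + E.phi p r y := by
  funext a
  simp [CrystalData.phi]

lemma phi_rational (hp : (p : Ω) ∈ E.K₀) {r : ℤ} {x : X.C} (hx : E.IsRational x) :
    E.IsRational (E.phi p r x) := fun a => by
  have h1 := (E.crystal a).stable _ (hx a)
  have h2 : (p : Ω) ^ (((a : ℤ) - r) / 2) ∈ E.K₀ := zpow_mem hp _
  exact (E.crystal a).form.smul _ h2 _ h1

lemma phi_mem {r w : ℤ} {x : X.C} (hx : x ∈ X.E₁ r w) : E.phi p r x ∈ X.E₁ r w := fun a =>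
  ⟨Submodule.smul_mem _ _ ((E.crystal a).graded _ _ (hx a).1), fun h => by
    unfold CrystalData.phi
    rw [(hx a).2 h, map_zero, smul_zero]⟩

lemma diff_phi [hp : NeZero p] (r : ℤ) (x : X.C) :
    X.diff r (E.phi p r x) = E.phi p (r + 1) (X.diff r x) := by
  have hp0 : (p : Ω) ≠ 0 := Nat.cast_ne_zero.2 hp.out
  funext a
  by_cases h : InColumn (r + 1) a
  · rw [X.diff_apply, X.cut_of h]
    have h2 := h.2
    show _ = ((p : Ω) ^ (((a : ℤ) - (r + 1)) / 2)) • E.φ a (X.diff r x a)
    rw [X.diff_apply, X.cut_of h, Pi.add_apply, Pi.add_apply, map_add, X.gysC_apply,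
      X.gysC_apply, smul_add, (E.gys a).comm]
    congr 1
    · cases a with
      | zero => simp
      | succ b =>
        rw [X.resC_succ, X.resC_succ, (E.res b).comm, one_smul]
        show X.res b (((p : Ω) ^ (((b : ℤ) - r) / 2)) • E.φ b (x b)) = _
        rw [map_smul]
        congr 3
        push_cast
        ring
    · show X.gys a (((p : Ω) ^ ((((a + 1 : ℕ) : ℤ) - r) / 2)) • E.φ (a + 1) (x (a + 1))) = _
      rw [map_smul, smul_smul, ← zpow_add_one₀ hp0]
      congr 2
      push_cast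
      omega
  · show X.diff r _ a = ((p : Ω) ^ (((a : ℤ) - (r + 1)) / 2)) • E.φ a (X.diff r x a)
    rw [X.diff_apply, X.diff_apply, X.cut_of_not h, X.cut_of_not h, map_zero, smul_zero]

/-- The rational coboundaries. -/
def ratBd (i w : ℤ) : Submodule E.K₀ X.C where
  carrier := {x | ∃ y, E.IsRational y ∧ y ∈ X.E₁ (i - 1) w ∧ X.diff (i - 1) y = x}
  add_mem' := by
    rintro _ _ ⟨y, h1, h2, rfl⟩ ⟨z, h3, h4, rfl⟩
    exact ⟨y + z, (ratC E).add_mem h1 h3, Submodule.add_mem _ h2 h4, map_add _ _ _⟩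
  zero_mem' := ⟨0, (ratC E).zero_mem, Submodule.zero_mem _, map_zero _⟩
  smul_mem' := by
    rintro c _ ⟨y, h1, h2, rfl⟩
    exact ⟨c • y, (ratC E).smul_mem c h1, Submodule.smul_mem _ (c : Ω) h2,
      map_smul (X.diff (i - 1)) (c : Ω) y⟩

lemma ratBd_le (i w : ℤ) : ratBd E i w ≤ ratC E := by
  rintro _ ⟨y, h1, h2, rfl⟩ a
  rw [X.diff_apply]
  by_cases h : InColumn (i - 1 + 1) a
  · rw [X.cut_of h, Pi.add_apply]
    apply (E.D a).add_mem
    · cases a with
      | zero => exact (E.D 0).zero_mem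
      | succ b => exact (E.res b).map _ (h1 b)
    · exact (E.gys a).map _ (h1 (a + 1))
  · rw [X.cut_of_not h]
    exact (E.D a).zero_mem

/-- The term `E_1` is spanned by its rational elements. -/
lemma E₁_span (r w : ℤ) : X.E₁ r w ≤ Submodule.span Ω {y | E.IsRational y ∧ y ∈ X.E₁ r w} := by
  classical
  intro x hx
  have h1 : x = ∑ a ∈ Finset.range (n + 1), (Pi.single a (x a) : X.C) := by
    funext b
    rw [Finset.sum_apply]
    by_cases hb : b < n + 1
    · rw [Finset.sum_eq_single b]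
      · rw [Pi.single_eq_same]
      · intro c _ hc
        rw [Pi.single_eq_of_ne hc.symm]
      · intro h
        exact absurd (Finset.mem_range.2 hb) h
    · rw [X.eq_zero_of_lt (by omega) (x b), X.eq_zero_of_lt (by omega) (Finset.sum _ _)]
  rw [h1]
  apply Submodule.sum_mem
  intro a _
  by_cases hc : InColumn r a
  · have h2 := (E.crystal a).span _ _ (hx a).1
    have h3 : (LinearMap.single Ω X.H a) (x a) ∈
        (Submodule.span Ω {y | y ∈ E.D a ∧ y ∈ X.gr a (w + r - a)}).map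
          (LinearMap.single Ω X.H a) := Submodule.mem_map_of_mem h2
    rw [Submodule.map_span] at h3
    refine Submodule.span_mono ?_ h3
    rintro _ ⟨z, ⟨hz1, hz2⟩, rfl⟩
    refine ⟨fun b => ?_, X.single_mem hc hz2⟩
    show (Pi.single a z : X.C) b ∈ E.D b
    by_cases hb : b = a
    · subst hb
      rw [Pi.single_eq_same]
      exact hz1
    · rw [Pi.single_eq_of_ne hb]
      exact (E.D b).zero_mem
  · rw [(hx a).2 hc, Pi.single_zero]
    exact Submodule.zero_mem _

lemma coboundaries_le (i w : ℤ) :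
    X.coboundaries i w ≤ Submodule.span Ω (ratBd E i w : Set X.C) := by
  rintro _ ⟨y, hy, rfl⟩
  have h1 := Submodule.mem_map_of_mem (f := X.diff (i - 1)) (E₁_span E _ _ hy)
  rw [Submodule.map_span] at h1
  refine Submodule.span_mono ?_ h1
  rintro _ ⟨z, ⟨hz1, hz2⟩, rfl⟩
  exact ⟨z, hz1, hz2, rfl⟩

lemma ratBd_sub (i w : ℤ) : ∀ x ∈ ratBd E i w, x ∈ X.coboundaries i w := by
  rintro _ ⟨y, h1, h2, rfl⟩
  exact ⟨y, h2, rfl⟩

/-- If the part of character `χ` is contained in a simple isocrystal, the character is simple. -/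
theorem simpleAt_of_inSimple [NeZero p] {i w : ℤ} {χ : Γ → Ω}
    (h : InSimpleC E.toCrystalData p i w χ) : X.SimpleAt i w χ := by
  obtain ⟨S, ⟨hS, hsimple⟩, hle⟩ := h
  have hp : (p : Ω) ∈ E.K₀ := natCast_mem _ _
  let S₀ := toSub E.K₀ S hS.smul
  have hSr : S₀ ≤ ratC E := fun x hx => hS.rational x hx
  have hsub : IsSubcrystal E.toCrystalData p i w (S ⊓ (ratBd E i w).toAddSubgroup) := by
    refine ⟨fun c hc x hx => ⟨hS.smul c hc x hx.1, (ratBd E i w).smul_mem (⟨c, hc⟩ : E.K₀) hx.2⟩,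
      fun x hx => hS.rational x hx.1, fun x hx => hS.primitive x hx.1, fun x hx => ?_⟩
    obtain ⟨h1, y, h2, h3, h4⟩ := hx
    refine ⟨hS.stable x h1, E.phi p (i - 1) y, phi_rational E hp h2, phi_mem E h3, ?_⟩
    rw [diff_phi, h4, show i - 1 + 1 = i by ring]
  right
  rcases hsimple _ inf_le_left hsub with h1 | h1
  · right
    have h2 : Disjoint S₀ (ratBd E i w) := by
      rw [Submodule.disjoint_def]
      intro x hx1 hx2
      have h3 : x ∈ S ⊓ (ratBd E i w).toAddSubgroup := ⟨hx1, hx2⟩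
      rw [h1] at h3
      exact h3
    have h3 := (isFormIn_ratC E).disjoint_span hSr (ratBd_le E i w) h2
    exact h3.mono hle (coboundaries_le E i w)
  · left
    refine hle.trans (Submodule.span_le.2 fun x hx => ?_)
    have h2 : x ∈ S ⊓ (ratBd E i w).toAddSubgroup := by rw [h1]; exact hx
    exact ratBd_sub E i w x h2.2

end Pool.Agent.R942.WP
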