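import Pool.Agent.R942.WP.Simple

/-!
# Isocrystals of slope `r / h` and dimension at most `h` are simple
-/

set_option autoImplicit false

namespace Pool.Agent.R942.WP

open Module Pool.Agent.Y143 Pool.Agent.R942.WS

universe u v

section Defs

variable {Ω : Type u} [Field Ω]

variable [CharZero Ω] {Γ : Type} {n q : ℕ} {X : SpecialFibre.{u, v} Ω Γ n q}

/-- The isocrystal `S` has slope `lam`: all eigenvalues of the geometric Frobenius on it have the
valuation `f lam`. -/
def HasSlope (X : SpecialFibre.{u, v} Ω Γ n q) (f : ℕ) (val : Ω → ℚ) (i : ℤ)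
    (S : AddSubgroup X.C) (lam : ℚ) : Prop :=
  ∀ (α : Ω) (x : X.C), x ∈ Submodule.span Ω (S : Set X.C) → x ≠ 0 →
    X.actC i X.frob x = α • x → val α = f * lam

/-- The part of character `χ` of the primitive part of `E_1^(i, w)` is contained in an isocrystal of
some slope `lam` whose dimension is at most the denominator of `lam` (such an isocrystal is
simple). -/
def InSlopeC (E : CrystalData X.toStrataData) (p f : ℕ) (val : Ω → ℚ) (i w : ℤ) (χ : Γ → Ω) :
    Prop :=
  ∃ (S : AddSubgroup X.C) (lam : ℚ), IsSubcrystal E p i w S ∧ HasSlope X f val i S lam ∧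
    finrank Ω (Submodule.span Ω (S : Set X.C)) ≤ lam.den ∧
      X.primPart i w χ ≤ Submodule.span Ω (S : Set X.C)

end Defs

section Val

variable {Ω : Type u} [Field Ω] {K₀ : Subfield Ω} {σ : Ω ≃+* Ω} {val : Ω → ℚ}

lemma IsValuation.one (h : IsValuation K₀ σ val) : val 1 = 0 := by
  have := h.mul 1 1 one_ne_zero one_ne_zero
  rw [one_mul] at this
  linarith

lemma IsValuation.prod (h : IsValuation K₀ σ val) {c : ℚ} (s : Multiset Ω)
    (h0 : ∀ x ∈ s, x ≠ 0) (hc : ∀ x ∈ s, val x = c) : val s.prod = Multiset.card s * c := by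
  induction s using Multiset.induction_on with
  | empty => simp [h.one]
  | cons a s ih =>
    have h1 : s.prod ≠ 0 := by
      intro h2
      rw [Multiset.prod_eq_zero_iff] at h2
      exact h0 0 (Multiset.mem_cons_of_mem h2) rfl
    rw [Multiset.prod_cons, h.mul _ _ (h0 a (Multiset.mem_cons_self a s)) h1,
      ih (fun x hx => h0 x (Multiset.mem_cons_of_mem hx))
        (fun x hx => hc x (Multiset.mem_cons_of_mem hx)),
      hc a (Multiset.mem_cons_self a s), Multiset.card_cons]
    push_cast
    ring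

end Val

variable {Ω : Type u} [Field Ω] [CharZero Ω] {Γ : Type} {n q : ℕ}
  {X : SpecialFibre.{u, v} Ω Γ n q} {p f : ℕ} (E : Crystals X.toStrataData p f)

lemma phi_smul (r : ℤ) (c : Ω) (x : X.C) : E.phi p r (c • x) = E.σ c • E.phi p r x := by
  funext a
  unfold CrystalData.phi
  rw [Pi.smul_apply, (E.crystal a).semilinear, smul_comm]
  rfl

lemma phi_sum {ι : Type*} (s : Finset ι) (r : ℤ) (x : ι → X.C) :
    E.phi p r (∑ j ∈ s, x j) = ∑ j ∈ s, E.phi p r (x j) := by
  classical
  induction s using Finset.induction_on with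
  | empty =>
    rw [Finset.sum_empty, Finset.sum_empty]
    funext a
    simp [CrystalData.phi]
  | insert a s ha ih => rw [Finset.sum_insert ha, Finset.sum_insert ha, phi_add, ih]

/-- The iterates of `phi`. -/
lemma phi_iter (r : ℤ) (x : X.C) (t : ℕ) (a : ℕ) :
    ((E.phi p r)^[t] x) a = ((p : Ω) ^ t) ^ (((a : ℤ) - r) / 2) • (E.φ a)^[t] (x a) := by
  induction t generalizing x with
  | zero => simp
  | succ t ih =>
    rw [Function.iterate_succ', Function.comp_apply, Function.iterate_succ', Function.comp_apply]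
    show ((p : Ω) ^ (((a : ℤ) - r) / 2)) • E.φ a ((E.phi p r)^[t] x a) = _
    rw [ih, (E.crystal a).semilinear, smul_smul, map_zpow₀, map_pow, map_natCast, pow_succ',
      mul_zpow]

lemma frob_eq (hq : q = p ^ f) {r : ℤ} {x : X.C} (hx : E.IsRational x) :
    (E.phi p r)^[f] x = X.actC r X.frob x := by
  funext a
  have hqp : ((p : Ω) ^ f) = (q : Ω) := by rw [hq]; push_cast; rfl
  rw [phi_iter, (E.crystal a).frob _ (hx a), X.actC_apply, Units.val_zpow_eq_zpow_val, X.cyc_frob,
    hqp]

lemma iter_mem {i w : ℤ} {S : AddSubgroup X.C} (hS : IsSubcrystal E.toCrystalData p i w S)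
    (t : ℕ) {x : X.C} (hx : x ∈ S) : (E.phi p i)^[t] x ∈ S := by
  induction t with
  | zero => exact hx
  | succ t ih =>
    rw [Function.iterate_succ', Function.comp_apply]
    exact hS.stable _ ih

lemma finite_of_sub {S : Submodule E.K₀ X.C}
    (hS : ∀ x ∈ S, E.IsRational x) : Module.Finite E.K₀ S := by
  let b := Basis.ofVectorSpace E.K₀ S
  have h1 : LinearIndependent E.K₀ (fun j => (b j : X.C)) :=
    b.linearIndependent.map' S.subtype S.ker_subtype
  have h2 : LinearIndependent Ω (fun j => (b j : X.C)) :=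
    (isFormIn_ratC E).linearIndependent (fun j => hS _ (b j).2) h1
  have h3 : Finite (Basis.ofVectorSpaceIndex E.K₀ S) := h2.finite
  exact Module.Finite.of_basis b

lemma finrank_le_span {S : Submodule E.K₀ X.C} (hS : ∀ x ∈ S, E.IsRational x) :
    finrank E.K₀ S ≤ finrank Ω (Submodule.span Ω (S : Set X.C)) := by
  have := finite_of_sub E hS
  let b := Module.finBasis E.K₀ S
  have h1 : LinearIndependent E.K₀ (fun j => (b j : X.C)) :=
    b.linearIndependent.map' S.subtype S.ker_subtype
  have h2 : LinearIndependent Ω (fun j => (b j : X.C)) :=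
    (isFormIn_ratC E).linearIndependent (fun j => hS _ (b j).2) h1
  have h3 := finrank_span_eq_card h2
  rw [Fintype.card_fin] at h3
  rw [← h3]
  apply Submodule.finrank_mono
  rw [Submodule.span_le]
  rintro _ ⟨j, rfl⟩
  exact Submodule.subset_span (b j).2

/-- The iterates of `phi` on a basis. -/
lemma iter_basis {d : ℕ} {i : ℤ} {v : Fin d → X.C} {A : Matrix (Fin d) (Fin d) Ω}
    (hA : ∀ j, E.phi p i (v j) = ∑ k, A k j • v k) :
    ∀ t : ℕ, ∃ M : Matrix (Fin d) (Fin d) Ω, (∀ j, (E.phi p i)^[t] (v j) = ∑ k, M k j • v k) ∧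
      M.det = ∏ s ∈ Finset.range t, (E.σ : Ω → Ω)^[s] A.det := by
  intro t
  induction t with
  | zero =>
    refine ⟨1, fun j => ?_, by simp⟩
    rw [Finset.sum_eq_single j]
    · simp
    · intro k _ hk
      rw [Matrix.one_apply_ne hk, zero_smul]
    · intro h
      exact absurd (Finset.mem_univ _) h
  | succ t ih =>
    obtain ⟨M, hM, hdet⟩ := ih
    refine ⟨A * M.map E.σ, fun j => ?_, ?_⟩
    · rw [Function.iterate_succ', Function.comp_apply, hM, phi_sum]
      have h1 : ∀ k, E.phi p i (M k j • v k) = ∑ l, (A l k * E.σ (M k j)) • v l := by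
        intro k
        rw [phi_smul, hA, Finset.smul_sum]
        refine Finset.sum_congr rfl (fun l _ => ?_)
        rw [smul_smul, mul_comm]
      simp_rw [h1]
      rw [Finset.sum_comm]
      refine Finset.sum_congr rfl (fun l _ => ?_)
      rw [← Finset.sum_smul, Matrix.mul_apply]
      rfl
    · rw [Matrix.det_mul, Finset.prod_range_succ', Function.iterate_zero, id_eq]
      have h1 : (M.map E.σ).det = E.σ M.det := by
        have := RingEquiv.map_det E.σ M
        rw [this]
        rfl
      rw [h1, hdet, map_prod, mul_comm]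
      congr 1
      refine Finset.prod_congr rfl (fun s _ => ?_)
      rw [Function.iterate_succ', Function.comp_apply]

/-- An isocrystal of slope `lam` whose dimension is at most the denominator of `lam` is simple. -/
theorem simple_of_slope [IsAlgClosed Ω] {val : Ω → ℚ} (hval : IsValuation E.K₀ E.σ val)
    (hq : q = p ^ f) (hf : 0 < f) {i w : ℤ} {S₁ : AddSubgroup X.C} {lam : ℚ}
    (hS₁ : IsSubcrystal E.toCrystalData p i w S₁) (hlam : HasSlope X f val i S₁ lam)
    (hdim₁ : finrank Ω (Submodule.span Ω (S₁ : Set X.C)) ≤ lam.den) :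
    IsSimpleCrystal E.toCrystalData p i w S₁ := by
  refine ⟨hS₁, fun S₁' hle₁ hS₁' => ?_⟩
  by_cases h00 : S₁' = ⊥
  · exact Or.inl h00
  right
  set S := toSub E.K₀ S₁ hS₁.smul with hSdef
  set S' := toSub E.K₀ S₁' hS₁'.smul with hSdef'
  have hle : S' ≤ S := hle₁
  have hdim : finrank E.K₀ S ≤ lam.den := (finrank_le_span E (S := S) hS₁.rational).trans hdim₁
  have h0 : S' ≠ ⊥ := by
    intro h
    apply h00
    rw [eq_bot_iff]
    intro x hx
    have hx' : x ∈ S' := hx
    rw [h] at hx'
    exact hx'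
  suffices hSS : S' = S by
    apply le_antisymm hle₁
    intro x hx
    have hx' : x ∈ S := hx
    rw [← hSS] at hx'
    exact hx'
  have hfin := finite_of_sub E (S := S) hS₁.rational
  have hfin' := finite_of_sub E (S := S') hS₁'.rational
  set d := finrank E.K₀ S' with hd
  have hdpos : 0 < d := by
    rw [Nat.pos_iff_ne_zero]
    intro h
    exact h0 (Submodule.finrank_eq_zero.1 h)
  let b := Module.finBasis E.K₀ S'
  let v : Fin d → X.C := fun j => (b j : X.C)
  have hvS : ∀ j, v j ∈ S' := fun j => (b j).2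
  have hvr : ∀ j, E.IsRational (v j) := fun j => hS₁'.rational _ (hvS j)
  have hv : LinearIndependent Ω v :=
    (isFormIn_ratC E).linearIndependent hvr (b.linearIndependent.map' S'.subtype S'.ker_subtype)
  have hexp : ∀ x ∈ S', ∃ a : Fin d → E.K₀, x = ∑ k, (a k : Ω) • v k := by
    intro x hx
    refine ⟨fun k => b.repr ⟨x, hx⟩ k, ?_⟩
    have := congrArg (Submodule.subtype S') (b.sum_repr ⟨x, hx⟩)
    rw [map_sum] at this
    exact this.symm
  have hex2 : ∀ j, ∃ a : Fin d → E.K₀, E.phi p i (v j) = ∑ k, (a k : Ω) • v k :=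
    fun j => hexp _ (hS₁'.stable _ (hvS j))
  choose a ha using hex2
  let A0 : Matrix (Fin d) (Fin d) E.K₀ := fun k j => a j k
  let A : Matrix (Fin d) (Fin d) Ω := A0.map (algebraMap E.K₀ Ω)
  have hA : ∀ j, E.phi p i (v j) = ∑ k, A k j • v k := ha
  have hdetA : A.det ∈ E.K₀ := by
    have h1 : A.det = algebraMap E.K₀ Ω A0.det := by
      have := RingHom.map_det (algebraMap E.K₀ Ω) A0
      rw [this]
      rfl
    rw [h1]
    exact A0.det.2
  obtain ⟨M, hM, hdet⟩ := iter_basis E hA f
  have hMF : ∀ j, X.actC i X.frob (v j) = ∑ k, M k j • v k := fun j => by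
    rw [← frob_eq E hq (hvr j)]
    exact hM j
  -- the eigenvectors
  have heig : ∀ y : Fin d → Ω, X.actC i X.frob (∑ j, y j • v j) =
      ∑ k, (M.mulVec y) k • v k := by
    intro y
    rw [map_sum]
    have h1 : ∀ j, X.actC i X.frob (y j • v j) = ∑ k, (M k j * y j) • v k := by
      intro j
      rw [map_smul, hMF, Finset.smul_sum]
      refine Finset.sum_congr rfl (fun l _ => ?_)
      rw [smul_smul, mul_comm]
    simp_rw [h1]
    rw [Finset.sum_comm]
    refine Finset.sum_congr rfl (fun l _ => ?_)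
    rw [← Finset.sum_smul]
    rfl
  have hroot : ∀ μ ∈ M.charpoly.roots, μ ≠ 0 ∧ val μ = f * lam := by
    intro μ hμ
    have h1 : M.charpoly.IsRoot μ := (Polynomial.mem_roots'.1 hμ).2
    have h1' : Module.End.HasEigenvalue (Matrix.toLin' M) μ := by
      rw [Module.End.hasEigenvalue_iff_isRoot_charpoly, Matrix.charpoly_toLin']
      exact h1
    obtain ⟨y, hy⟩ := h1'.exists_hasEigenvector
    have h2 : M.mulVec y = μ • y := by
      have := hy.apply_eq_smul
      rwa [Matrix.toLin'_apply] at this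
    have h3 : X.actC i X.frob (∑ j, y j • v j) = μ • ∑ j, y j • v j := by
      rw [heig, h2, Finset.smul_sum]
      refine Finset.sum_congr rfl (fun l _ => ?_)
      rw [smul_smul]
      rfl
    have h4 : ∑ j, y j • v j ≠ 0 := by
      intro h
      apply hy.2
      funext j
      exact linearIndependent_iff'.1 hv Finset.univ y h j (Finset.mem_univ j)
    have h5 : ∑ j, y j • v j ∈ Submodule.span Ω (S : Set X.C) :=
      Submodule.sum_mem _ (fun j _ => Submodule.smul_mem _ _
        (Submodule.subset_span (hle (hvS j))))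
    refine ⟨?_, hlam μ _ h5 h4 h3⟩
    rintro rfl
    rw [zero_smul] at h3
    apply h4
    funext c
    have h6 := congrFun h3 c
    rw [X.actC_apply] at h6
    have h7 : X.act c X.frob ((∑ j, y j • v j) c) = 0 := by
      have := (smul_eq_zero.1 h6).resolve_left (Units.ne_zero _)
      exact this
    have h8 := X.frob_inv c ((∑ j, y j • v j) c)
    rw [h7, map_zero] at h8
    exact h8.symm
  have hsplit : M.charpoly.Splits := IsAlgClosed.splits _
  have hprod : M.det = M.charpoly.roots.prod := Matrix.det_eq_prod_roots_charpoly_of_splits hsplit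
  have hcard : Multiset.card M.charpoly.roots = d := by
    have h1 := hsplit.natDegree_eq_card_roots
    rw [← h1, Matrix.charpoly_natDegree_eq_dim, Fintype.card_fin]
  have hval1 : val M.det = d * (f * lam) := by
    rw [hprod, hval.prod _ (fun x hx => (hroot x hx).1) (fun x hx => (hroot x hx).2), hcard]
  have hdet0 : M.det ≠ 0 := by
    rw [hprod]
    intro h
    rw [Multiset.prod_eq_zero_iff] at h
    exact (hroot 0 h).1 rfl
  have hA0 : A.det ≠ 0 := by
    intro h
    apply hdet0
    rw [hdet]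
    apply Finset.prod_eq_zero (Finset.mem_range.2 hf)
    exact h
  have hiter : ∀ s : ℕ, (E.σ : Ω → Ω)^[s] A.det ∈ E.K₀ ∧ (E.σ : Ω → Ω)^[s] A.det ≠ 0 ∧
      val ((E.σ : Ω → Ω)^[s] A.det) = val A.det := by
    intro s
    induction s with
    | zero => exact ⟨hdetA, hA0, rfl⟩
    | succ s ih =>
      rw [Function.iterate_succ', Function.comp_apply]
      refine ⟨E.σ_mem _ ih.1, ?_, ?_⟩
      · intro h
        exact ih.2.1 ((map_eq_zero_iff E.σ E.σ.injective).1 h)
      · rw [hval.frob _ ih.1, ih.2.2]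
  have hval2 : ∀ t : ℕ, (∏ s ∈ Finset.range t, (E.σ : Ω → Ω)^[s] A.det) ≠ 0 ∧
      val (∏ s ∈ Finset.range t, (E.σ : Ω → Ω)^[s] A.det) = t * val A.det := by
    intro t
    induction t with
    | zero => simp [hval.one]
    | succ t ih =>
      rw [Finset.prod_range_succ]
      refine ⟨mul_ne_zero ih.1 (hiter t).2.1, ?_⟩
      rw [hval.mul _ _ ih.1 (hiter t).2.1, ih.2, (hiter t).2.2]
      push_cast
      ring
  obtain ⟨k, hk⟩ := hval.int _ hdetA hA0
  have h1 : (d : ℚ) * lam = k := by
    have h2 := (hval2 f).2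
    rw [← hdet, hval1, hk] at h2
    have hf0 : (f : ℚ) ≠ 0 := by exact_mod_cast hf.ne'
    have h3 : (f : ℚ) * (d * lam) = f * k := by linarith
    exact mul_left_cancel₀ hf0 h3
  have h2 : (d : ℤ) * lam.num = k * lam.den := by
    have h3 : (lam.den : ℚ) ≠ 0 := by exact_mod_cast lam.den_nz
    have h4 : lam * lam.den = lam.num := Rat.mul_den_eq_num lam
    have h5 : (d : ℚ) * lam.num = k * lam.den := by
      rw [← h4, ← h1]
      ring
    exact_mod_cast h5
  have h3 : (lam.den : ℤ) ∣ d := by
    have h4 : (lam.den : ℤ) ∣ d * lam.num := ⟨k, by rw [h2, mul_comm]⟩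
    refine IsCoprime.dvd_of_dvd_mul_right ?_ h4
    rw [Int.isCoprime_iff_gcd_eq_one]
    have := lam.reduced
    rw [Nat.Coprime, Nat.gcd_comm] at this
    simpa [Int.gcd] using this
  have h4 : lam.den ≤ d := Nat.le_of_dvd hdpos (by exact_mod_cast h3)
  exact Submodule.eq_of_le_of_finrank_le hle (by omega)

theorem simpleAt_of_inSlope [IsAlgClosed Ω] [NeZero p] {val : Ω → ℚ}
    (hval : IsValuation E.K₀ E.σ val) (hq : q = p ^ f) (hf : 0 < f) {i w : ℤ} {χ : Γ → Ω}
    (h : InSlopeC E.toCrystalData p f val i w χ) : X.SimpleAt i w χ := by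
  obtain ⟨S, lam, h1, h2, h3, h4⟩ := h
  exact simpleAt_of_inSimple E ⟨S, simple_of_slope E hval hq hf h1 h2 h3, h4⟩

end Pool.Agent.R942.WP
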